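import Pool.Agent.Results.MP_eb0437_lc.MonotoneHullsIndependent
import Pool.Agent.Helper292.ForceCH

/-!
# Consistently every Borel class has a monotone `G_δ` hull operation

The continuum hypothesis can be forced, and it implies that there is a monotone `G_δ` hull
operation on the Borel subsets of `[0,1]`. The forcing language is the one of
`Pool.Agent.Helper292.ForceCH`: a sentence is represented by the set of the conditions which force
it, with the usual clauses for the connectives.
-/

set_option autoImplicit false

namespace Pool.Agent.Results.MP_eb0437_lc.ConsistentlyYes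

open Pool.Agent.Results.MP_eb0437_lc.MonotoneHullsIndependent

/-- (1) Some forcing notion forces, below every condition, that `ω₁` is preserved and that the
continuum hypothesis holds. (2) The continuum hypothesis implies that every class of Borel subsets
of `[0,1]` has a monotone `G_δ` hull operation; (3) in particular the class of all of them. -/
theorem result :
    (∃ (P : Type) (_ : Preorder P), Nonempty P ∧ ∀ p : P,
      p ∈ Pool.Agent.Helper292.ForceCH.OmegaOnePreserved P ∧
      p ∈ Pool.Agent.Helper292.ForceCH.CHHolds P) ∧
    (Cardinal.aleph 1 = Cardinal.continuum.{0} →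
      ∀ 𝓓 : Set (Set ℝ), 𝓓 ⊆ Borel01 → HasMonotoneHull 𝓓 Gdelta01) ∧
    (Cardinal.aleph 1 = Cardinal.continuum.{0} → HasMonotoneHull Borel01 Gdelta01) := by
  have h := MonotoneHullsIndependent.result.2.1
  refine ⟨?_, h, fun hCH => h hCH Borel01 subset_rfl⟩
  obtain ⟨P, i, h1, h2⟩ := Pool.Agent.Helper292.ForceCH.exists_forcing
  exact ⟨P, i, h1, fun p => ⟨(h2 p).1, (h2 p).2.2⟩⟩

end Pool.Agent.Results.MP_eb0437_lc.ConsistentlyYes
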